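import Pool.Agent.H995R3.Boards.Final

/-!
# In the Cohen model no number of boards makes all multiboard Gale-Stewart games determined
-/

namespace Pool.Agent.Results.MP_e811a4_lc.CohenUndetermined

open Cardinal Pool.Agent.Helper669.Forcing Pool.Agent.H458R4.Cohen Pool.Agent.H995R3.Boards

universe u v

/-- Let `κ ^ ℵ₀ = κ > ℵ₀`, and let `Fn κ` be the forcing notion of all finite partial functions
from `κ × ω` to `2`. For each set `L` with at least two elements there is a name `S` for a set of
sequences of elements of `L` such that every condition forces, for every nonempty set `K` of the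
ground model, that the game `GS_L(S, K)` is undetermined. -/
theorem result (κ : Cardinal.{0}) (hκ : ℵ₀ < κ) (hpow : κ ^ ℵ₀ = κ) (L : Type v)
    (hL : ∃ a b : L, a ≠ b) :
    ∃ S : SetName (Fn κ.out) ℕ L, ∀ (p : Fn κ.out) (K : Type u), Nonempty K →
      p ∈ Undetermined K S := by
  obtain ⟨a, b, hab⟩ := hL
  exact exists_payoff hκ hpow hab

end Pool.Agent.Results.MP_e811a4_lc.CohenUndetermined
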